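import Pool.Agent.Helper82.PL.Own2
import Pool.Agent.Helper82.PL.Barrier
import Pool.Agent.Helper32.PL.R
import Pool.Agent.Helper33.PL.Exist
import Pool.Agent.Helper50.PL.Pass2
import Pool.Agent.Helper51.PL.BoundS
import Pool.Agent.Helper51.PL.JetA
import Pool.Agent.Helper51.PL.Prof
import Pool.Agent.Helper54.PL.EL
import Pool.Agent.Helper57.PL.Lim
import Pool.Agent.Helper61.PL.Trunc
import Pool.Agent.Helper74.PL.Polar
import Pool.Agent.Helper8.PL.Rd
import Pool.Agent.Helper8.PL.U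
import Pool.Agent.Helper94.PL.Ext
import Pool.Agent.Helper10.PL.Ibp

/-!
A Fuchsian isolated singular point of a `p`-Laplacian type equation need not be regular:
`p = 4`, `d = 2`, `Ω = ℝ² ∖ {0}`, `ζ = ∞`.
-/

set_option autoImplicit false

open MeasureTheory Set Filter Topology
open Pool.Agent.Helper82.PLO (IsWeakSol)

namespace Pool.Agent.Results.MP_8d56bc_an.InfinityNotRegular

/-- There is a potential `V`, continuous in `ℝ² ∖ {0}`, with a Fuchsian type singularity at infinity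
(even `|x|⁴ |V(x)| ≤ C` for all `x ≠ 0`), such that `-Δ₄ w + V |w|² w = 0` has a positive weak solution
`u` in all of `ℝ² ∖ {0}` and a positive weak solution `v` in `{|x| > 1}` for which `u / v` has no limit
in `[-∞, ∞]` at infinity.  Moreover `u` is of class `C¹` and bounded between two positive constants,
`v` is continuous, `exp (-M) u ≤ v ≤ u`, and the bounds are attained: `u = exp M · v` on the positive and
`u = v` on the negative half of the first axis. -/
theorem result :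
    ∃ (V u v : EuclideanSpace ℝ (Fin 2) → ℝ) (C M : ℝ), 0 < C ∧ 0 < M ∧
      ContinuousOn V {x | x ≠ 0} ∧ (∀ x, x ≠ 0 → ‖x‖ ^ 4 * |V x| ≤ C) ∧
      ContDiffOn ℝ 1 u {x | x ≠ 0} ∧ (∀ x, x ≠ 0 → C⁻¹ ≤ u x ∧ u x ≤ C) ∧
      IsWeakSol 4 V {x | x ≠ 0} u ∧
      ContinuousOn v {x | 1 < ‖x‖} ∧ IsWeakSol 4 V {x | 1 < ‖x‖} v ∧
      (∀ x, 1 < ‖x‖ → Real.exp (-M) * u x ≤ v x ∧ v x ≤ u x) ∧
      (∀ R : ℝ, 1 < R → u !₂[R, 0] = Real.exp M * v !₂[R, 0] ∧ u !₂[-R, 0] = v !₂[-R, 0]) ∧
      ∀ c : EReal, ¬ Tendsto (fun x => ((u x / v x : ℝ) : EReal))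
        (Bornology.cobounded (EuclideanSpace ℝ (Fin 2))) (𝓝 c) := by
  have hI : Pool.Agent.Helper82.PL.stmtIBP := Pool.Agent.Helper10.PL.ibp
  have hE := Pool.Agent.Helper94.PL.ext
  have hInt := Pool.Agent.Helper33.PL.int_ok
  have hLow := Pool.Agent.Helper33.PL.low_ok hInt
  have hMid := Pool.Agent.Helper33.PL.mid_ok hInt
  have hEL := Pool.Agent.Helper54.PL.el_ok hInt hLow hE
  have hLim := Pool.Agent.Helper57.PL.lim_ok Pool.Agent.Helper57.PL.morrey
  have hPass := Pool.Agent.Helper50.PL.pass_ok hI hE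
  have hExist := Pool.Agent.Helper33.PL.exist_ok hLow hMid hEL hLim hPass
  have hUp := Pool.Agent.Helper61.PL.truncUp_ok hI hE hInt
  have hDown := Pool.Agent.Helper61.PL.truncDown_ok hI hE hInt
  have hPolar := Pool.Agent.Helper74.PL.polar_ok
  have hProf := Pool.Agent.Helper51.PL.prof_ok
  have hPsi := Pool.Agent.Helper51.PL.psi_ok hProf
  have hR := Pool.Agent.Helper32.PL.r_ok hProf
  have hRd := Pool.Agent.Helper8.PL.rd_ok hProf hR
  have hJetS := Pool.Agent.Helper51.PL.jetS_ok hProf hR hRd Pool.Agent.Helper51.PL.g_ok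
  have hEven := Pool.Agent.Helper51.PL.evenS_ok
  have hBound := Pool.Agent.Helper51.PL.boundS_ok hProf hR hRd
  have hJetA := Pool.Agent.Helper51.PL.jetA_ok hProf
  have hJetAA := Pool.Agent.Helper51.PL.jetAA_ok hProf hJetA
  have hU := Pool.Agent.Helper8.PL.u_ok hPolar hJetAA
  have hSolU := Pool.Agent.Helper8.PL.solU_ok hI
  have hOm := Pool.Agent.Helper8.PL.om_ok
  have hBar := Pool.Agent.Helper82.PL.barrier_ok hProf hPsi hR hBound hEven
  exact Pool.Agent.Helper82.PL.own hExist hUp hDown hPolar hJetA hJetS hJetAA hBound hEven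
    hBar hU hOm hSolU

end Pool.Agent.Results.MP_8d56bc_an.InfinityNotRegular
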